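import Mathlib
import Pool.Agent.Helper49.Sq.Defs
import Pool.Agent.Helper49.Sq.Transfer

set_option autoImplicit false
open MeasureTheory Filter Topology Set
open Pool.Agent.Helper49.Sq.Defs

namespace Pool.Agent.Results.MP_559b1d_an.SquareCounterexample

/-- Sanity check: piecewise continuous functions act by multiplication on `L²(Γ)`. -/
theorem mulOp_exists {b : ℝ → ℂ} (hb : IsPC b) : ∃ M : Op, IsMulOp b M :=
  Pool.Agent.Helper49.Sq.Extra.exists_mulOp hb

/-- Sanity check: the identity operator is strongly elliptic. -/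
theorem id_stronglyElliptic : StronglyElliptic (ContinuousLinearMap.id ℂ H) := by
  refine ⟨ContinuousLinearMap.id ℂ H, ContinuousLinearMap.id ℂ H, 0, fun f g => ?_,
    ⟨fun f g => rfl, 1, one_pos, fun f => ?_⟩, isCompactOperator_zero, fun f => ?_⟩
  · simp only [ContinuousLinearMap.id_apply]
    ring
  · have h : (inner ℂ f f : ℂ).re = ‖f‖ ^ 2 := inner_self_eq_norm_sq (𝕜 := ℂ) f
    rw [ContinuousLinearMap.id_apply, h, one_mul]
  · simp

/-- On the boundary of the unit square there are piecewise continuous (even constant) coefficients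
`a`, `b` which satisfy condition (3), while neither `a I + b S` nor `a I + S b I` is
`θ`-strongly elliptic. -/
theorem result :
    ∃ γ : ℝ → ℂ, IsUnitSquare γ ∧
      ∃ S : Op, IsCauchyOp γ S ∧ (∀ S' : Op, IsCauchyOp γ S' → S' = S) ∧
        ∃ a b : ℝ → ℂ, IsPC a ∧ IsPC b ∧ Condition3 a b ∧
          (∃ A : Op, IsAIbS a b S A ∧ ¬ ThetaStronglyElliptic A) ∧
          (∃ A : Op, IsAISb a b S A ∧ ¬ ThetaStronglyElliptic A) := by
  obtain ⟨S, hS⟩ := Pool.Agent.Helper49.Sq.Op4.exists_cauchyOp Pool.Agent.Helper49.Sq.Op.sq_isUnitSquare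
  obtain ⟨ε0, hε0, hall⟩ := Pool.Agent.Helper49.Sq.Test7.not_theta
    Pool.Agent.Helper49.Sq.Op.sq_isUnitSquare hS
  set c : ℂ := -((ε0 / 2 : ℝ) : ℂ) * Complex.I with hc
  obtain ⟨A, hA⟩ : ∃ A : Pool.Agent.Helper49.Sq.Core.L2 →L[ℂ] Pool.Agent.Helper49.Sq.Core.L2,
      ∀ F, A F = c • F + S F := ⟨c • ContinuousLinearMap.id ℂ _ + S, fun F => rfl⟩
  have hA2 : ∀ F, (A F : ℝ → ℂ) =ᵐ[mu] fun s => c * (F : ℝ → ℂ) s + (S F : ℝ → ℂ) s := by
    intro F
    rw [hA]
    filter_upwards [Lp.coeFn_add (c • F) (S F), Lp.coeFn_smul c F] with s h1 h2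
    rw [h1, Pi.add_apply, h2]
    rfl
  have hnot : ¬ ThetaStronglyElliptic A := fun h =>
    hall (ε0 / 2) (by linarith) (by linarith) A hA (Pool.Agent.Helper49.Sq.Transfer.theta A h)
  refine ⟨_, Pool.Agent.Helper49.Sq.Op.sq_isUnitSquare, S, hS,
    fun S' hS' => Pool.Agent.Helper49.Sq.Extra.cauchyOp_unique hS hS',
    fun _ => c, fun _ => 1,
    Pool.Agent.Helper49.Sq.Extra.isPC_const _, Pool.Agent.Helper49.Sq.Extra.isPC_const _,
    Pool.Agent.Helper49.Sq.Extra.cond3 _ (by positivity), ⟨A, ?_, hnot⟩,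
    ⟨A, ⟨ContinuousLinearMap.id ℂ _, ?_, ?_⟩, hnot⟩⟩
  · intro F
    have h := hA2 F
    simp only [one_mul]
    exact h
  · intro F
    simp only [one_mul]
    exact Filter.EventuallyEq.rfl
  · intro F
    exact hA2 F

end Pool.Agent.Results.MP_559b1d_an.SquareCounterexample
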